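import Pool.Agent.Helper97.Tate.Goals

/-!
Packet TATE-KRN: the kernel of the restriction to the cubic.
-/

set_option autoImplicit false

noncomputable section

namespace Pool.Agent.Helper76.Tate.KRN

open Pool.Agent.Helper97.Tate

variable {k : Type} [Field k]

/-- the evaluation at the theta functions -/
def evT (k : Type) [Field k] : MvPolynomial (Fin 3) (OO k) →+* SS k :=
  MvPolynomial.eval₂Hom iO fun r : Fin 3 => Th 3 ((r : ℕ) : ℤ) (1 : k)

/-- the property of the descent -/
def PP (d : ℕ) (r : MvPolynomial (Fin 3) (OO k)) : Prop :=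
  r.IsHomogeneous d ∧ (∀ e ∈ r.support, e 1 ≤ 2) ∧ evT k r = 0

theorem cc_iO : (PowerSeries.constantCoeff).comp (iO : OO k →+* SS k) =
    (LaurentPolynomial.C).comp PowerSeries.constantCoeff := by
  ext a
  simp only [iO, RingHom.comp_apply]
  rw [← PowerSeries.coeff_zero_eq_constantCoeff_apply, PowerSeries.coeff_map,
    PowerSeries.coeff_zero_eq_constantCoeff_apply]

theorem cc_evT (h1 : S_THC) (r : MvPolynomial (Fin 3) (OO k)) :
    PowerSeries.constantCoeff (evT k r) =
      MvPolynomial.aeval ![(1 + LaurentPolynomial.T 3 : LaurentPolynomial k),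
        LaurentPolynomial.T 1, LaurentPolynomial.T 2]
        (MvPolynomial.map (PowerSeries.constantCoeff) r) := by
  have h0 := (h1 k 3 0 1 one_ne_zero le_rfl (by norm_num)).2.2
  have h01 := (h1 k 3 1 1 one_ne_zero (by norm_num) (by norm_num)).2.2
  have h02 := (h1 k 3 2 1 one_ne_zero (by norm_num) (by norm_num)).2.2
  rw [if_pos rfl] at h0
  rw [if_neg (by norm_num)] at h01 h02
  have h : (PowerSeries.constantCoeff).comp (evT k) =
      ((MvPolynomial.aeval ![(1 + LaurentPolynomial.T 3 : LaurentPolynomial k),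
        LaurentPolynomial.T 1, LaurentPolynomial.T 2]).toRingHom).comp
        (MvPolynomial.map (PowerSeries.constantCoeff)) := by
    apply MvPolynomial.ringHom_ext
    · intro a
      have := RingHom.congr_fun (cc_iO (k := k)) a
      simp only [RingHom.comp_apply] at this
      simp only [evT, RingHom.comp_apply, MvPolynomial.coe_eval₂Hom, MvPolynomial.eval₂_C,
        MvPolynomial.map_C, AlgHom.toRingHom_eq_coe, RingHom.coe_coe, MvPolynomial.aeval_C]
      rw [this]
      rfl
    · intro i
      simp only [evT, RingHom.comp_apply, MvPolynomial.coe_eval₂Hom, MvPolynomial.eval₂_X,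
        MvPolynomial.map_X, AlgHom.toRingHom_eq_coe, RingHom.coe_coe, MvPolynomial.aeval_X]
      fin_cases i
      · simpa using h0
      · simpa using h01
      · simpa using h02
  exact RingHom.congr_fun h r

theorem step (h1 : S_THC) (h2 : S_IND) (d : ℕ) (r : MvPolynomial (Fin 3) (OO k)) (hr : PP d r) :
    ∃ r1, r = MvPolynomial.C PowerSeries.X * r1 ∧ PP d r1 := by
  obtain ⟨hd, he, hz⟩ := hr
  have h3 : MvPolynomial.map (PowerSeries.constantCoeff) r = 0 := by
    apply h2 k d
    · exact hd.map _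
    · intro e h
      exact he e (MvPolynomial.support_map_subset _ _ h)
    · rw [← cc_evT h1, hz, map_zero]
  have h4 : MvPolynomial.C PowerSeries.X ∣ r := by
    rw [MvPolynomial.C_dvd_iff_dvd_coeff]
    intro e
    rw [PowerSeries.X_dvd_iff, ← MvPolynomial.coeff_map, h3, MvPolynomial.coeff_zero]
  obtain ⟨r1, rfl⟩ := h4
  refine ⟨r1, rfl, ?_, ?_, ?_⟩
  · intro e h
    apply hd
    rw [MvPolynomial.coeff_C_mul]
    exact mul_ne_zero PowerSeries.X_ne_zero h
  · intro e h
    apply he
    rw [MvPolynomial.mem_support_iff, MvPolynomial.coeff_C_mul]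
    exact mul_ne_zero PowerSeries.X_ne_zero (MvPolynomial.mem_support_iff.1 h)
  · rw [map_mul] at hz
    have h5 : evT k (MvPolynomial.C PowerSeries.X) = PowerSeries.X := by
      simp [evT, iO]
    rw [h5] at hz
    ext1 n
    have := congrArg (PowerSeries.coeff (n + 1)) hz
    rw [PowerSeries.coeff_succ_X_mul] at this
    simpa using this

theorem desc (h1 : S_THC) (h2 : S_IND) (d : ℕ) (r : MvPolynomial (Fin 3) (OO k)) (hr : PP d r) :
    r = 0 := by
  have h3 : ∀ N : ℕ, ∀ r : MvPolynomial (Fin 3) (OO k), PP d r →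
      ∀ e, PowerSeries.X ^ N ∣ MvPolynomial.coeff e r := by
    intro N
    induction N with
    | zero => intro r _ e; simp
    | succ N ih =>
      intro r hr e
      obtain ⟨r1, rfl, hr1⟩ := step h1 h2 d r hr
      rw [MvPolynomial.coeff_C_mul, pow_succ']
      exact mul_dvd_mul_left _ (ih r1 hr1 e)
  ext e n
  have := h3 (n + 1) r hr e
  rw [PowerSeries.X_pow_dvd_iff] at this
  simpa using this n (Nat.lt_succ_self n)

theorem evK_evT (h1 : S_EVC) (x : kˣ) (r : MvPolynomial (Fin 3) (OO k)) :
    evK x (evT k r) = MvPolynomial.aeval (ph x)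
      (MvPolynomial.map (algebraMap (OO k) (KK k)) r) := by
  have h : (evK x).comp (evT k) = ((MvPolynomial.aeval (ph x)).toRingHom).comp
      (MvPolynomial.map (algebraMap (OO k) (KK k))) := by
    apply MvPolynomial.ringHom_ext
    · intro a
      simp only [evT, RingHom.comp_apply, MvPolynomial.coe_eval₂Hom, MvPolynomial.eval₂_C,
        MvPolynomial.map_C, AlgHom.toRingHom_eq_coe, RingHom.coe_coe, MvPolynomial.aeval_C]
      rw [(h1 k x 0 0 0).2.2 a]
      rfl
    · intro i
      simp only [evT, RingHom.comp_apply, MvPolynomial.coe_eval₂Hom, MvPolynomial.eval₂_X,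
        MvPolynomial.map_X, AlgHom.toRingHom_eq_coe, RingHom.coe_coe, MvPolynomial.aeval_X, ph]
  exact RingHom.congr_fun h r

theorem clear (r : MvPolynomial (Fin 3) (KK k)) :
    ∃ (δ : OO k) (r0 : MvPolynomial (Fin 3) (OO k)), δ ≠ 0 ∧
      MvPolynomial.map (algebraMap (OO k) (KK k)) r0 =
        MvPolynomial.C (algebraMap (OO k) (KK k) δ) * r := by
  classical
  obtain ⟨b, hb⟩ := IsLocalization.exist_integer_multiples (nonZeroDivisors (OO k)) r.support
    (fun e => MvPolynomial.coeff e r)
  have h1 : ∀ e, ∃ c : OO k, algebraMap (OO k) (KK k) c =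
      algebraMap (OO k) (KK k) b * MvPolynomial.coeff e r := by
    intro e
    by_cases he : e ∈ r.support
    · obtain ⟨c, hc⟩ := hb e he
      refine ⟨c, ?_⟩
      rw [hc, Algebra.smul_def]
    · refine ⟨0, ?_⟩
      rw [MvPolynomial.notMem_support_iff.1 he, mul_zero, map_zero]
  choose c hc using h1
  refine ⟨b, ∑ e ∈ r.support, MvPolynomial.monomial e (c e), nonZeroDivisors.ne_zero b.2, ?_⟩
  rw [map_sum]
  conv_rhs => rw [r.as_sum, Finset.mul_sum]
  apply Finset.sum_congr rfl
  intro e _
  rw [MvPolynomial.map_monomial, hc, MvPolynomial.C_mul_monomial]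

theorem t (h1 : S_EVC) (h2 : S_EVI) (h3 : S_THC) (h4 : S_IND) (h5 : S_RED) (h6 : S_CUV) :
    S_KRN := by
  intro k _ α β γ hc x d z hz hx
  have hβ : β ≠ 0 := by
    rintro rfl
    have := hc.2.1
    rw [PowerSeries.X_dvd_iff] at this
    simp at this
  have hinj := IsFractionRing.injective (OO k) (KK k)
  have hβ' : algebraMap (OO k) (KK k) β ≠ 0 := by
    intro h
    exact hβ (hinj (by rw [h, map_zero]))
  obtain ⟨y, r, hzr, hr, he⟩ := h5 (KK k) (algebraMap (OO k) (KK k) α) (algebraMap (OO k) (KK k) β)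
    (algebraMap (OO k) (KK k) γ) hβ' d z hz
  have hr0 : MvPolynomial.aeval (ph x) r = 0 := by
    rw [hzr, map_add, map_mul] at hx
    have := (h6 k α β γ hc x x x).1
    rw [cubK] at this
    rwa [this, zero_mul, zero_add] at hx
  have hr1 : r = 0 := by
    obtain ⟨δ, r0, hδ, hm⟩ := clear r
    have hδ' : algebraMap (OO k) (KK k) δ ≠ 0 := by
      intro h
      exact hδ (hinj (by rw [h, map_zero]))
    have hco : ∀ e, MvPolynomial.coeff e r0 ≠ 0 → MvPolynomial.coeff e r ≠ 0 := by
      intro e h h'
      apply h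
      apply hinj
      rw [← MvPolynomial.coeff_map, hm, MvPolynomial.coeff_C_mul, h', mul_zero, map_zero]
    have hP : PP d r0 := by
      refine ⟨?_, ?_, ?_⟩
      · intro e h
        exact hr (hco e h)
      · intro e h
        exact he e (MvPolynomial.mem_support_iff.2 (hco e (MvPolynomial.mem_support_iff.1 h)))
      · apply h2 k x
        rw [evK_evT h1, hm, map_mul, hr0, mul_zero]
    have := desc h3 h4 d r0 hP
    rw [this, map_zero] at hm
    have h7 := mul_eq_zero.1 hm.symm
    rcases h7 with h7 | h7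
    · exact absurd ((MvPolynomial.C_eq_zero).1 h7) hδ'
    · exact h7
  refine ⟨y, ?_⟩
  rw [hzr, hr1, add_zero]
  rfl

end Pool.Agent.Helper76.Tate.KRN
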